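import Pool.Agent.W443.J6.Stms

/-!
Project J6, part PS: the positive directions, case analysis.
-/

set_option autoImplicit false

open MvPolynomial Pool.Agent.H938R2.JC Pool.Agent.W443.J5

namespace Pool.Agent.W443.J6

namespace PsAux

universe u

section

variable {k : Type u} [Field k]

theorem coeff_part (w0 w1 d : ℤ) (f : MvPolynomial (Fin 2) k) (r : Fin 2 →₀ ℕ) :
    coeff r (part w0 w1 d f) =
      if w0 * (r 0 : ℤ) + w1 * (r 1 : ℤ) = d then coeff r f else 0 := by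
  classical
  unfold part
  rw [coeff_sum]
  simp only [coeff_monomial]
  rw [Finset.sum_ite_eq' (f.support.filter (fun m => w0 * (m 0 : ℤ) + w1 * (m 1 : ℤ) = d)) r
    (fun m => coeff m f)]
  by_cases h : w0 * (r 0 : ℤ) + w1 * (r 1 : ℤ) = d
  · rw [if_pos h]
    split_ifs with h1
    · rfl
    · by_contra hne
      apply h1
      rw [Finset.mem_filter, mem_support_iff]
      exact ⟨fun h0 => hne h0.symm, h⟩
  · rw [if_neg h, if_neg]
    intro h1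
    exact h (Finset.mem_filter.1 h1).2

theorem part_wt {w0 w1 d : ℤ} {f : MvPolynomial (Fin 2) k} {r : Fin 2 →₀ ℕ}
    (h : coeff r (part w0 w1 d f) ≠ 0) : w0 * (r 0 : ℤ) + w1 * (r 1 : ℤ) = d := by
  rw [coeff_part] at h
  by_contra hne
  exact h (if_neg hne)

theorem part_ne {w0 w1 d : ℤ} {f : MvPolynomial (Fin 2) k} {r : Fin 2 →₀ ℕ}
    (h : coeff r (part w0 w1 d f) ≠ 0) : coeff r f ≠ 0 := by
  have h1 := part_wt h
  rwa [coeff_part, if_pos h1] at h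

theorem part_mem {w0 w1 d : ℤ} {f : MvPolynomial (Fin 2) k} {r : Fin 2 →₀ ℕ}
    (h1 : w0 * (r 0 : ℤ) + w1 * (r 1 : ℤ) = d) (h : coeff r f ≠ 0) :
    coeff r (part w0 w1 d f) ≠ 0 := by
  rwa [coeff_part, if_pos h1]

/-- coefficients at `x = 1` -/
theorem dh_coeff {A : MvPolynomial (Fin 2) k} {r0 : Fin 2 →₀ ℕ} (hA : coeff r0 A ≠ 0)
    (hu : ∀ r, coeff r A ≠ 0 → r 1 = r0 1 → r = r0) :
    (aeval ![1, Polynomial.X] A : Polynomial k).coeff (r0 1) ≠ 0 := by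
  classical
  have h1 : (aeval ![1, Polynomial.X] A : Polynomial k) =
      ∑ r ∈ A.support, Polynomial.C (coeff r A) * Polynomial.X ^ (r 1) := by
    rw [aeval_def, eval₂_eq']
    refine Finset.sum_congr rfl fun r _ => ?_
    rw [Fin.prod_univ_two]
    simp
  rw [h1, Polynomial.finsetSum_coeff, Finset.sum_eq_single r0]
  · rw [Polynomial.coeff_C_mul, Polynomial.coeff_X_pow_self, mul_one]
    exact hA
  · intro r hr hne
    rw [Polynomial.coeff_C_mul, Polynomial.coeff_X_pow, if_neg, mul_zero]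
    intro h2
    exact hne (hu r (mem_support_iff.1 hr) h2.symm)
  · intro h2
    rw [notMem_support_iff] at h2
    exact absurd h2 hA

/-- two monomials -/
theorem dh_pos {w0 w1 D : ℤ} (hw : w0 ≠ 0) {f : MvPolynomial (Fin 2) k} {r0 : Fin 2 →₀ ℕ}
    (hA : coeff r0 f ≠ 0) (h1 : w0 * (r0 0 : ℤ) + w1 * (r0 1 : ℤ) = D) (h2 : 0 < r0 1) :
    0 < (dh w0 w1 D f).natDegree := by
  have h3 : (dh w0 w1 D f).coeff (r0 1) ≠ 0 := by
    unfold dh
    refine dh_coeff (part_mem h1 hA) ?_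
    intro r hr hr1
    have h4 := part_wt hr
    rw [ext_iff']
    refine ⟨?_, hr1⟩
    rw [hr1] at h4
    have h5 : w0 * ((r 0 : ℤ) - (r0 0 : ℤ)) = 0 := by linarith
    rcases mul_eq_zero.1 h5 with h6 | h6
    · exact absurd h6 hw
    · have : (r 0 : ℤ) = (r0 0 : ℤ) := by linarith
      exact_mod_cast this
  exact h2.trans_le (Polynomial.le_natDegree_of_ne_zero h3)

/-- the expansion of the shape -/
theorem shape_sum (c : k) (n i j : ℕ) :
    (X 1 ^ j * (X 0 + C c * X 1 ^ n) ^ i : MvPolynomial (Fin 2) k) =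
      ∑ l ∈ Finset.range (i + 1), monomial (e (i - l) (j + n * l)) (c ^ l * (i.choose l : k)) := by
  rw [add_comm (X 0 : MvPolynomial (Fin 2) k), add_pow, Finset.mul_sum]
  refine Finset.sum_congr rfl fun l _ => ?_
  have h1 : (monomial (e (i - l) (j + n * l)) (c ^ l * (i.choose l : k)) :
      MvPolynomial (Fin 2) k) = C (c ^ l * (i.choose l : k)) * (X 0 ^ (i - l) *
        X 1 ^ (j + n * l)) := by
    rw [monomial_eq, Finsupp.prod_fintype _ _ (by simp), Fin.prod_univ_two]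
    simp only [e_zero, e_one]
  rw [h1, C_mul, C_pow, mul_pow, ← pow_mul, pow_add]
  have h2 : (C (i.choose l : k) : MvPolynomial (Fin 2) k) = (i.choose l : MvPolynomial (Fin 2) k) :=
    map_natCast C _
  rw [h2]
  ring

theorem shape_top (κ c : k) (n i j : ℕ) :
    coeff (e i j) (C κ * X 1 ^ j * (X 0 + C c * X 1 ^ n) ^ i : MvPolynomial (Fin 2) k) = κ := by
  classical
  rw [mul_assoc, coeff_C_mul, shape_sum, coeff_sum, Finset.sum_eq_single 0]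
  · rw [coeff_monomial, if_pos]
    · simp
    · simp
  · intro l hl hl0
    rw [coeff_monomial, if_neg]
    intro h
    rw [e_inj] at h
    have := Finset.mem_range.1 hl
    omega
  · intro h
    exact absurd (Finset.mem_range.2 (Nat.succ_pos i)) h

theorem shape_mem {κ c : k} {n i j : ℕ} {r : Fin 2 →₀ ℕ}
    (h : coeff r (C κ * X 1 ^ j * (X 0 + C c * X 1 ^ n) ^ i : MvPolynomial (Fin 2) k) ≠ 0) :
    ∃ l ≤ i, r 0 = i - l ∧ r 1 = j + n * l ∧ (l ≠ 0 → c ≠ 0) := by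
  classical
  rw [mul_assoc, coeff_C_mul, shape_sum, coeff_sum] at h
  have h1 := right_ne_zero_of_mul h
  obtain ⟨l, hl, h2⟩ := Finset.exists_ne_zero_of_sum_ne_zero h1
  rw [coeff_monomial] at h2
  have h3 : e (i - l) (j + n * l) = r := by
    by_contra h4
    exact h2 (if_neg h4)
  refine ⟨l, by have := Finset.mem_range.1 hl; omega, ?_, ?_, ?_⟩
  · rw [← h3, e_zero]
  · rw [← h3, e_one]
  · intro hl0 hc
    apply h2
    rw [if_pos h3, hc, zero_pow hl0, zero_mul]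

/-- the hypotheses -/
def Hyp (a b m q : ℕ) (f g : MvPolynomial (Fin 2) k) : Prop :=
  Bad f g ∧ Sim a b f g ∧ Sim b a g f ∧ Low 1 0 (a * m) (a * q) f ∧ Upp 1 0 (a * m) (a * q) f

/-- the conclusion -/
def Concl (k : Type u) [Field k] (a b m : ℕ) : Prop :=
  ∃ (f' g' : MvPolynomial (Fin 2) k) (m' : ℕ), 1 ≤ m' ∧ m' < m ∧ Bad f' g' ∧ Sim a b f' g' ∧
    Sim b a g' f' ∧ Top 1 0 (a * m') f'

theorem Hyp.corner {a b m q : ℕ} {f g : MvPolynomial (Fin 2) k} (h : Hyp a b m q f g) :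
    coeff (e (a * m) (a * q)) f ≠ 0 ∧ ∀ r, coeff r f ≠ 0 → r 0 < a * m ∨
      (r 0 = a * m ∧ r 1 = a * q) := by
  obtain ⟨_, _, _, hL, hU⟩ := h
  refine ⟨hL.1, fun r hr => ?_⟩
  rcases hL.2 r hr with h1 | ⟨h1, h2⟩
  · left
    have : (r 0 : ℤ) < ((a * m : ℕ) : ℤ) := by linarith
    exact_mod_cast this
  · rcases hU.2 r hr with h3 | ⟨h3, h4⟩
    · left
      have : (r 0 : ℤ) < ((a * m : ℕ) : ℤ) := by linarith
      exact_mod_cast this
    · right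
      have : (r 0 : ℤ) = ((a * m : ℕ) : ℤ) := by linarith
      exact ⟨by exact_mod_cast this, le_antisymm h4 h2⟩

theorem Hyp.eq_corner {a b m q : ℕ} {f g : MvPolynomial (Fin 2) k} (h : Hyp a b m q f g)
    {r : Fin 2 →₀ ℕ} (hr : coeff r f ≠ 0) (h0 : a * m ≤ r 0) : r = e (a * m) (a * q) := by
  rcases h.corner.2 r hr with h1 | ⟨h1, h2⟩
  · omega
  · rw [ext_iff', e_zero, e_one]
    exact ⟨h1, h2⟩

/-- the exponents of the shape -/
theorem shape_eq {a b m q n i j : ℕ} {f g : MvPolynomial (Fin 2) k} {κ c : k}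
    (h : Hyp a b m q f g) (hκ : κ ≠ 0)
    (hA : part n 1 (n * (a * m) + a * q) f = C κ * X 1 ^ j * (X 0 + C c * X 1 ^ n) ^ i) :
    i = a * m ∧ j = a * q := by
  have h1 : coeff (e i j) (part n 1 (n * (a * m) + a * q) f) ≠ 0 := by
    rw [hA, shape_top]
    exact hκ
  have h2 := part_ne h1
  have h3 : i ≤ a * m := by
    rcases h.corner.2 _ h2 with h4 | ⟨h4, _⟩
    · rw [e_zero] at h4
      exact h4.le
    · rw [e_zero] at h4
      exact h4.le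
  have h5 : coeff (e (a * m) (a * q)) (part n 1 (n * (a * m) + a * q) f) ≠ 0 := by
    refine part_mem ?_ h.corner.1
    rw [e_zero, e_one]
    push_cast
    ring
  rw [hA] at h5
  obtain ⟨l, hl, h6, h7, _⟩ := shape_mem h5
  rw [e_zero] at h6
  rw [e_one] at h7
  have hl0 : l = 0 := by omega
  subst hl0
  rw [mul_zero, add_zero] at h7
  exact ⟨by omega, h7.symm⟩

/-- the statement for the direction `(n, 1)` -/
def HH (k : Type u) [Field k] (a b m q n : ℕ) : Prop := ∀ f g : MvPolynomial (Fin 2) k,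
  Hyp a b m q f g → Top (n : ℤ) 1 ((n : ℤ) * ((a : ℤ) * (m : ℤ)) + (a : ℤ) * (q : ℤ)) f →
    Concl k a b m

theorem top_sw {w0 w1 d : ℤ} {f : MvPolynomial (Fin 2) k} (h : Top w0 w1 d f) :
    Top w1 w0 d (sw f) := by
  constructor
  · intro r hr
    rw [eq_e r, coeff_sw] at hr
    have := h.1 _ hr
    rw [e_zero, e_one] at this
    linarith
  · obtain ⟨r, hr, h1⟩ := h.2
    refine ⟨e (r 1) (r 0), ?_, ?_⟩
    · rw [coeff_sw, ← eq_e]
      exact hr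
    · rw [e_zero, e_one]
      linarith

theorem base (hSIM : S_SIM.{u}) [CharZero k] {a b m q : ℕ} (ha : 2 ≤ a) (hb : 2 ≤ b)
    (hab : Nat.Coprime a b) (hqm : q < m) : HH k a b m q 0 := by
  intro f g h hT
  obtain ⟨c, hc, hJ⟩ := h.1.1
  have hT1 : Top 0 1 ((a : ℤ) * (q : ℤ)) f := by
    have e1 : ((0 : ℕ) : ℤ) * ((a : ℤ) * (m : ℤ)) + (a : ℤ) * (q : ℤ) = (a : ℤ) * (q : ℤ) := by
      push_cast
      ring
    rw [e1, Nat.cast_zero] at hT
    exact hT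
  rcases Nat.eq_zero_or_pos q with hq | hq
  · exfalso
    apply h.1.2
    refine line' hJ hc fun i hi => ?_
    by_contra hne
    have h1 := hT1.1 _ hne
    rw [e_zero, e_one, hq] at h1
    push_cast at h1
    omega
  · have hBad : Bad (sw f) (sw g) := by
      refine ⟨⟨-c, neg_ne_zero.2 hc, ?_⟩, fun hg => h.1.2 (Good.of_equiv sw hg)⟩
      rw [J_sw, hJ]
      simp [sw]
    have hTf : Top 1 0 ((a : ℤ) * (q : ℤ)) (sw f) := top_sw hT1
    obtain ⟨n, hn, h1, h2⟩ := h.2.1.1 0 1 _ (Or.inr one_pos) hT1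
    have hnq : n = q := by
      have ha0 : (a : ℤ) ≠ 0 := by
        have : (0 : ℤ) < a := by exact_mod_cast (by omega : 0 < a)
        exact this.ne'
      exact (mul_left_cancel₀ ha0 h1).symm
    rw [hnq] at h2
    have hTg : Top 1 0 ((b : ℤ) * (q : ℤ)) (sw g) := top_sw h2
    have hs := hSIM k (sw f) (sw g) hBad a b (by omega) (by omega) hab 1 0 q (Or.inl one_pos)
      hTf hTg
    exact ⟨sw f, sw g, q, hq, hqm, hBad, hs.1, hs.2, hTf⟩

/-- the expansion of the other shape -/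
theorem shape'_sum (c : k) (n i j : ℕ) :
    (X 0 ^ i * (X 1 + C c * X 0 ^ n) ^ j : MvPolynomial (Fin 2) k) =
      ∑ l ∈ Finset.range (j + 1), monomial (e (i + n * l) (j - l)) (c ^ l * (j.choose l : k)) := by
  rw [add_comm (X 1 : MvPolynomial (Fin 2) k), add_pow, Finset.mul_sum]
  refine Finset.sum_congr rfl fun l _ => ?_
  have h1 : (monomial (e (i + n * l) (j - l)) (c ^ l * (j.choose l : k)) :
      MvPolynomial (Fin 2) k) = C (c ^ l * (j.choose l : k)) * (X 0 ^ (i + n * l) *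
        X 1 ^ (j - l)) := by
    rw [monomial_eq, Finsupp.prod_fintype _ _ (by simp), Fin.prod_univ_two]
    simp only [e_zero, e_one]
  rw [h1, C_mul, C_pow, mul_pow, ← pow_mul, pow_add]
  have h2 : (C (j.choose l : k) : MvPolynomial (Fin 2) k) = (j.choose l : MvPolynomial (Fin 2) k) :=
    map_natCast C _
  rw [h2]
  ring

theorem shape'_bot (κ c : k) (n i j : ℕ) :
    coeff (e (i + n * j) 0)
      (C κ * X 0 ^ i * (X 1 + C c * X 0 ^ n) ^ j : MvPolynomial (Fin 2) k) = κ * c ^ j := by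
  classical
  rw [mul_assoc, coeff_C_mul, shape'_sum, coeff_sum, Finset.sum_eq_single j]
  · rw [coeff_monomial, if_pos]
    · simp
    · simp
  · intro l hl hl0
    rw [coeff_monomial, if_neg]
    intro h
    rw [e_inj] at h
    have := Finset.mem_range.1 hl
    omega
  · intro h
    exact absurd (Finset.mem_range.2 (Nat.lt_succ_self j)) h

theorem shape'_mem {κ c : k} {n i j : ℕ} {r : Fin 2 →₀ ℕ}
    (h : coeff r (C κ * X 0 ^ i * (X 1 + C c * X 0 ^ n) ^ j : MvPolynomial (Fin 2) k) ≠ 0) :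
    ∃ l ≤ j, r 0 = i + n * l ∧ r 1 = j - l ∧ (l ≠ 0 → c ≠ 0) := by
  classical
  rw [mul_assoc, coeff_C_mul, shape'_sum, coeff_sum] at h
  have h1 := right_ne_zero_of_mul h
  obtain ⟨l, hl, h2⟩ := Finset.exists_ne_zero_of_sum_ne_zero h1
  rw [coeff_monomial] at h2
  have h3 : e (i + n * l) (j - l) = r := by
    by_contra h4
    exact h2 (if_neg h4)
  refine ⟨l, by have := Finset.mem_range.1 hl; omega, ?_, ?_, ?_⟩
  · rw [← h3, e_zero]
  · rw [← h3, e_one]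
  · intro hl0 hc
    apply h2
    rw [if_pos h3, hc, zero_pow hl0, zero_mul]

theorem coeff_X_e (l : Fin 2) (r : Fin 2 →₀ ℕ) (h : coeff r (X l : MvPolynomial (Fin 2) k) ≠ 0) :
    r = Finsupp.single l 1 := by
  classical
  rw [coeff_X] at h
  by_contra hne
  exact h (if_neg fun h' => hne h'.symm)

theorem coeff_CX_e (c : k) (n : ℕ) (r : Fin 2 →₀ ℕ)
    (h : coeff r (C c * X 0 ^ n : MvPolynomial (Fin 2) k) ≠ 0) : r = Finsupp.single 0 n := by
  classical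
  rw [coeff_C_mul, coeff_X_pow] at h
  by_contra hne
  exact (right_ne_zero_of_mul h) (if_neg fun h' => hne h'.symm)

/-- the exceptional direction `(1, N)` -/
theorem caseOne [IsAlgClosed k] [CharZero k] (hPSB : S_PSB.{u}) {a b m q N : ℕ} (ha : 2 ≤ a)
    (hb : 2 ≤ b) (hab : Nat.Coprime a b) (hm : 1 ≤ m) {f g : MvPolynomial (Fin 2) k}
    (h : Hyp a b m q f g) (hN : 2 ≤ N)
    (hT : Top 1 (N : ℤ) ((a : ℤ) * (m : ℤ) + (N : ℤ) * ((a : ℤ) * (q : ℤ))) f) {κ c : k} {i j : ℕ}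
    (hκ : κ ≠ 0)
    (hA : part 1 (N : ℤ) ((a : ℤ) * (m : ℤ) + (N : ℤ) * ((a : ℤ) * (q : ℤ))) f =
      C κ * X 0 ^ i * (X 1 + C c * X 0 ^ N) ^ j) {r2 : Fin 2 →₀ ℕ} (hr2 : coeff r2 f ≠ 0)
    (hw : 1 * (r2 0 : ℤ) + (N : ℤ) * (r2 1 : ℤ) = (a : ℤ) * (m : ℤ) + (N : ℤ) * ((a : ℤ) * (q : ℤ)))
    (hlt : r2 0 < a * m) : Concl k a b m := by
  have h1 : coeff (e (a * m) (a * q)) (part 1 (N : ℤ) ((a : ℤ) * (m : ℤ) + (N : ℤ) *
      ((a : ℤ) * (q : ℤ))) f) ≠ 0 := by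
    refine part_mem ?_ h.corner.1
    rw [e_zero, e_one]
    push_cast
    ring
  have h2 := part_mem hw hr2
  rw [hA] at h1 h2
  obtain ⟨l1, hl1, a1, a2, a3⟩ := shape'_mem h1
  obtain ⟨l2, hl2, b1, b2, b3⟩ := shape'_mem h2
  rw [e_zero] at a1
  have hl : l2 < l1 := by
    rw [a1, b1] at hlt
    exact Nat.lt_of_mul_lt_mul_left (Nat.lt_of_add_lt_add_left hlt)
  have hc : c ≠ 0 := a3 (by omega)
  have h3 : coeff (e (i + N * j) 0) (part 1 (N : ℤ) ((a : ℤ) * (m : ℤ) + (N : ℤ) *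
      ((a : ℤ) * (q : ℤ))) f) ≠ 0 := by
    rw [hA, shape'_bot]
    exact mul_ne_zero hκ (pow_ne_zero _ hc)
  have h4 := part_wt h3
  rw [e_zero, e_one] at h4
  have h5 : i + N * j ≤ a * m := by
    rcases h.corner.2 _ (part_ne h3) with h6 | ⟨h6, _⟩
    · rw [e_zero] at h6
      exact h6.le
    · rw [e_zero] at h6
      exact h6.le
  have h6 : a * q = 0 := by
    have h7 : N * (a * q) = 0 := by
      have h8 : i + N * j = a * m + N * (a * q) := by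
        zify
        push_cast at h4
        linarith
      omega
    rcases Nat.mul_eq_zero.1 h7 with h8 | h8
    · omega
    · exact h8
  have hq : q = 0 := by
    rcases Nat.mul_eq_zero.1 h6 with h8 | h8
    · omega
    · exact h8
  subst hq
  have e1 : (a : ℤ) * (m : ℤ) + (N : ℤ) * ((a : ℤ) * ((0 : ℕ) : ℤ)) = (a : ℤ) * (m : ℤ) := by
    push_cast
    ring
  rw [e1] at hT hA
  refine hPSB k f g a b m N i j κ ![X 0, X 1 - C c * X 0 ^ N] ![X 0, X 1 + C c * X 0 ^ N] ha hb hab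
    hm h.1 h.2.1 h.2.2.1 (by omega) hT ?_ ?_ ?_ ?_ hκ (by omega) ?_
  · intro l
    fin_cases l
    · simp
    · simp
  · intro l
    fin_cases l
    · simp
    · simp
  · intro r hr
    have := coeff_X_e 0 r hr
    rw [this]
    simp
  · intro r hr
    have hr' : coeff r (X 1 - C c * X 0 ^ N : MvPolynomial (Fin 2) k) ≠ 0 := hr
    rw [coeff_sub] at hr'
    by_cases h7 : coeff r (X 1 : MvPolynomial (Fin 2) k) = 0
    · rw [h7, zero_sub, neg_ne_zero] at hr'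
      rw [coeff_CX_e c N r hr']
      simp
    · rw [coeff_X_e 1 r h7]
      simp
  · rw [hA]
    simp

/-- CASE I: the part in the direction `(n + 1, 1)` is a single monomial -/
theorem caseI [IsAlgClosed k] [CharZero k] (hDH : S_DH.{u}) (hCL1 : S_CL1.{u}) (hCL3 : S_CL3.{u})
    (hPSB : S_PSB.{u}) {a b m q n : ℕ} (ha : 2 ≤ a) (hb : 2 ≤ b) (hab : Nat.Coprime a b)
    (hm : 1 ≤ m) (hH : HH k a b m q n) {f g : MvPolynomial (Fin 2) k} (h : Hyp a b m q f g)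
    (hT : Top ((n + 1 : ℕ) : ℤ) 1 (((n + 1 : ℕ) : ℤ) * ((a : ℤ) * (m : ℤ)) + (a : ℤ) * (q : ℤ)) f)
    (hs : ∀ r, coeff r f ≠ 0 → ((n + 1 : ℕ) : ℤ) * (r 0 : ℤ) + 1 * (r 1 : ℤ) =
      ((n + 1 : ℕ) : ℤ) * ((a : ℤ) * (m : ℤ)) + (a : ℤ) * (q : ℤ) → r = e (a * m) (a * q)) :
    Concl k a b m := by
  classical
  by_cases hT' : Top (n : ℤ) 1 ((n : ℤ) * ((a : ℤ) * (m : ℤ)) + (a : ℤ) * (q : ℤ)) f
  · exact hH f g h hT'
  obtain ⟨c, hc, hJ⟩ := h.1.1
  have ham : 0 < a * m := Nat.mul_pos (by omega) (by omega)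
  obtain ⟨r1, hr1, hv⟩ : ∃ r, coeff r f ≠ 0 ∧
      (n : ℤ) * ((a : ℤ) * (m : ℤ)) + (a : ℤ) * (q : ℤ) < (n : ℤ) * (r 0 : ℤ) + 1 * (r 1 : ℤ) := by
    by_contra hcon
    push Not at hcon
    apply hT'
    refine ⟨fun r hr => hcon r hr, e (a * m) (a * q), h.corner.1, ?_⟩
    rw [e_zero, e_one]
    push_cast
    ring
  set P := f.support.filter (fun r => r 0 < a * m ∧ a * q < r 1) with hP
  have hr1a : r1 0 < a * m := by
    rcases h.corner.2 r1 hr1 with h1 | ⟨h1, h2⟩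
    · exact h1
    · exfalso
      rw [h1, h2] at hv
      push_cast at hv
      linarith
  have hr1b : a * q < r1 1 := by
    have h1 : (r1 0 : ℤ) < (a : ℤ) * (m : ℤ) := by exact_mod_cast hr1a
    have h2 : (0 : ℤ) ≤ n := Int.natCast_nonneg n
    have h3 : (a : ℤ) * (q : ℤ) < (r1 1 : ℤ) := by nlinarith
    exact_mod_cast h3
  have hr1P : r1 ∈ P := by
    rw [hP, Finset.mem_filter, mem_support_iff]
    exact ⟨hr1, hr1a, hr1b⟩
  obtain ⟨r2, hr2, hmax⟩ := Finset.exists_max_image P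
    (fun r => ((r 1 : ℚ) - ((a * q : ℕ) : ℚ)) / (((a * m : ℕ) : ℚ) - (r 0 : ℚ))) ⟨r1, hr1P⟩
  rw [hP, Finset.mem_filter, mem_support_iff] at hr2
  obtain ⟨hr2c, hr2a, hr2b⟩ := hr2
  obtain ⟨p, hp⟩ := Nat.exists_eq_add_of_lt hr2b
  obtain ⟨s, hsd⟩ := Nat.exists_eq_add_of_lt hr2a
  set p' := p + 1 with hp'
  set s' := s + 1 with hs'
  have hp2 : r2 1 = a * q + p' := by rw [hp, hp']; ring
  have hs2 : a * m = r2 0 + s' := by rw [hsd, hs']; ring
  have hmax' : ∀ r ∈ P, ((r 1 : ℤ) - (a : ℤ) * (q : ℤ)) * (s' : ℤ) ≤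
      (p' : ℤ) * ((a : ℤ) * (m : ℤ) - (r 0 : ℤ)) := by
    intro r hr
    have h1 := hmax r hr
    rw [hP, Finset.mem_filter] at hr
    have h2 : (0 : ℚ) < ((a * m : ℕ) : ℚ) - (r 0 : ℚ) := by
      rw [sub_pos]
      exact_mod_cast hr.2.1
    have e1 : ((a * m : ℕ) : ℚ) - (r2 0 : ℚ) = (s' : ℚ) := by
      rw [hs2]
      push_cast
      ring
    have e2 : (r2 1 : ℚ) - ((a * q : ℕ) : ℚ) = (p' : ℚ) := by
      rw [hp2]
      push_cast
      ring
    have h3 : (0 : ℚ) < (s' : ℚ) := by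
      exact_mod_cast (by omega : 0 < s')
    rw [e1, e2, div_le_div_iff₀ h2 h3] at h1
    have h4 : (((r 1 : ℤ) - (a : ℤ) * (q : ℤ)) * (s' : ℤ) : ℚ) ≤
        ((p' : ℤ) * ((a : ℤ) * (m : ℤ) - (r 0 : ℤ)) : ℚ) := by
      push_cast at h1 ⊢
      exact h1
    exact_mod_cast h4
  obtain ⟨W0, W1, hcop, hW0, hW1⟩ := Nat.exists_coprime p' s'
  set g0 := Nat.gcd p' s' with hg0
  have hg0p : 0 < g0 := Nat.gcd_pos_of_pos_left _ (by omega)
  have hg0z : (0 : ℤ) < (g0 : ℤ) := by exact_mod_cast hg0p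
  have hW0p : 0 < W0 := by
    rcases Nat.eq_zero_or_pos W0 with h1 | h1
    · rw [h1, zero_mul] at hW0
      omega
    · exact h1
  have hW1p : 0 < W1 := by
    rcases Nat.eq_zero_or_pos W1 with h1 | h1
    · rw [h1, zero_mul] at hW1
      omega
    · exact h1
  have hpz : (p' : ℤ) = (W0 : ℤ) * (g0 : ℤ) := by exact_mod_cast hW0
  have hsz : (s' : ℤ) = (W1 : ℤ) * (g0 : ℤ) := by exact_mod_cast hW1
  have hp2z : (r2 1 : ℤ) = (a : ℤ) * (q : ℤ) + (p' : ℤ) := by exact_mod_cast hp2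
  have hs2z : (a : ℤ) * (m : ℤ) = (r2 0 : ℤ) + (s' : ℤ) := by exact_mod_cast hs2
  have hW0z : (0 : ℤ) < (W0 : ℤ) := by exact_mod_cast hW0p
  have hW1z : (0 : ℤ) < (W1 : ℤ) := by exact_mod_cast hW1p
  set D : ℤ := (W0 : ℤ) * ((a : ℤ) * (m : ℤ)) + (W1 : ℤ) * ((a : ℤ) * (q : ℤ)) with hD
  have hall : ∀ r, coeff r f ≠ 0 → (W0 : ℤ) * (r 0 : ℤ) + (W1 : ℤ) * (r 1 : ℤ) ≤ D := by
    intro r hr
    rcases h.corner.2 r hr with h1 | ⟨h1, h2⟩
    · have h1z : (r 0 : ℤ) < (a : ℤ) * (m : ℤ) := by exact_mod_cast h1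
      rcases le_or_gt (r 1) (a * q) with h2 | h2
      · have h2z : (r 1 : ℤ) ≤ (a : ℤ) * (q : ℤ) := by exact_mod_cast h2
        have h3 := mul_le_mul_of_nonneg_left h1z.le hW0z.le
        have h4 := mul_le_mul_of_nonneg_left h2z hW1z.le
        rw [hD]
        linarith
      · have h3 := hmax' r (by rw [hP, Finset.mem_filter, mem_support_iff]; exact ⟨hr, h1, h2⟩)
        rw [hpz, hsz] at h3
        have h4 : (g0 : ℤ) * ((W0 : ℤ) * (r 0 : ℤ) + (W1 : ℤ) * (r 1 : ℤ)) ≤ (g0 : ℤ) * D := by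
          rw [hD]
          linarith
        exact le_of_mul_le_mul_left h4 hg0z
    · rw [h1, h2, hD]
      push_cast
      exact le_rfl
  have htie : (W0 : ℤ) * (r2 0 : ℤ) + (W1 : ℤ) * (r2 1 : ℤ) = D := by
    rw [hD, hp2z, hs2z, hpz, hsz]
    ring
  have hTop : Top (W0 : ℤ) (W1 : ℤ) D f := ⟨hall, r2, hr2c, htie⟩
  have hamz : (0 : ℤ) < (a : ℤ) * (m : ℤ) := by exact_mod_cast ham
  have haqz : (0 : ℤ) ≤ (a : ℤ) * (q : ℤ) := by positivity
  have hDpos : 0 < D := by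
    rw [hD]
    have h1 := mul_pos hW0z hamz
    have h2 := mul_nonneg hW1z.le haqz
    linarith
  obtain ⟨φ, hφ⟩ := hDH k f g c hc hJ (W0 : ℤ) (W1 : ℤ) D hW0z (by linarith) hDpos hTop
    (dh_pos hW0z.ne' hr2c htie (by omega))
  -- the slope
  have hlt : (W0 : ℤ) < ((n : ℤ) + 1) * (W1 : ℤ) := by
    have h1 := hT.1 r2 hr2c
    have h2 : ((n + 1 : ℕ) : ℤ) * (r2 0 : ℤ) + 1 * (r2 1 : ℤ) ≠
        ((n + 1 : ℕ) : ℤ) * ((a : ℤ) * (m : ℤ)) + (a : ℤ) * (q : ℤ) := by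
      intro h3
      have h4 := hs r2 hr2c h3
      rw [h4, e_zero] at hr2a
      exact lt_irrefl _ hr2a
    have h3 := lt_of_le_of_ne h1 h2
    rw [hp2z, hs2z, hpz, hsz] at h3
    push_cast at h3
    have h4 : (W0 : ℤ) * (g0 : ℤ) < (((n : ℤ) + 1) * (W1 : ℤ)) * (g0 : ℤ) := by linarith
    exact lt_of_mul_lt_mul_right h4 hg0z.le
  have hgt : (n : ℤ) * (W1 : ℤ) < (W0 : ℤ) := by
    have h1 := hmax' r1 hr1P
    have h1z : (0 : ℤ) < (a : ℤ) * (m : ℤ) - (r1 0 : ℤ) := by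
      rw [sub_pos]
      exact_mod_cast hr1a
    have h2 : (n : ℤ) * ((a : ℤ) * (m : ℤ) - (r1 0 : ℤ)) < (r1 1 : ℤ) - (a : ℤ) * (q : ℤ) := by
      linarith
    have h3 : (0 : ℤ) < (s' : ℤ) := by exact_mod_cast (by omega : 0 < s')
    have h4 := mul_lt_mul_of_pos_right h2 h3
    have h5 : (n : ℤ) * ((a : ℤ) * (m : ℤ) - (r1 0 : ℤ)) * (s' : ℤ) <
        (p' : ℤ) * ((a : ℤ) * (m : ℤ) - (r1 0 : ℤ)) := h4.trans_le h1
    rw [hpz, hsz] at h5
    have h6 : (n : ℤ) * (W1 : ℤ) * ((g0 : ℤ) * ((a : ℤ) * (m : ℤ) - (r1 0 : ℤ))) <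
        (W0 : ℤ) * ((g0 : ℤ) * ((a : ℤ) * (m : ℤ) - (r1 0 : ℤ))) := by linarith
    exact lt_of_mul_lt_mul_right h6 (mul_pos hg0z h1z).le
  have hW1two : 2 ≤ W1 := by
    by_contra hcon
    have h1 : W1 = 1 := by omega
    rw [h1] at hlt hgt
    push_cast at hlt hgt
    omega
  have hcorner : (W0 : ℤ) * ((e (a * m) (a * q) 0 : ℕ) : ℤ) +
      (W1 : ℤ) * ((e (a * m) (a * q) 1 : ℕ) : ℤ) = D := by
    rw [e_zero, e_one, hD]
    push_cast
    ring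
  have hc1 := part_mem hcorner h.corner.1
  have hc2 := part_mem htie hr2c
  have hAne : part (W0 : ℤ) (W1 : ℤ) D f ≠ 0 := by
    intro h0
    rw [h0, coeff_zero] at hc1
    exact hc1 rfl
  rcases le_or_gt 2 W0 with hW0two | hW0one
  · obtain ⟨μ, κ, hμ⟩ := hCL1 k (part (W0 : ℤ) (W1 : ℤ) D f) φ W0 W1 D hW0two hW1two hcop hDpos
      hAne (fun r hr => part_wt hr) hφ
    rw [hμ] at hc1 hc2
    rw [coeff_monomial] at hc1 hc2
    have h1 : μ = e (a * m) (a * q) := by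
      by_contra hne
      exact hc1 (if_neg hne)
    have h2 : μ = r2 := by
      by_contra hne
      exact hc2 (if_neg hne)
    rw [← h2, h1, e_zero] at hr2a
    exact absurd hr2a (lt_irrefl _)
  · have hW01 : W0 = 1 := by omega
    subst hW01
    have e1 : ((1 : ℕ) : ℤ) = 1 := Nat.cast_one
    have eD : D = (a : ℤ) * (m : ℤ) + (W1 : ℤ) * ((a : ℤ) * (q : ℤ)) := by
      rw [hD]
      push_cast
      ring
    rw [e1] at hφ hTop hAne htie
    obtain ⟨κ, c', i, j, hκ, hA⟩ := hCL3 k (part 1 (W1 : ℤ) D f) φ W1 D hW1two hDpos hAne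
      (fun r hr => by have := part_wt hr; linarith) hφ
    rw [eD] at hTop hA htie
    exact caseOne hPSB ha hb hab hm h hW1two hTop hκ hA hr2c htie hr2a

/-- removal of an edge -/
theorem caseA [IsAlgClosed k] [CharZero k] (hDH : S_DH.{u}) (hCL1 : S_CL1.{u}) (hCL3 : S_CL3.{u})
    (hPSB : S_PSB.{u}) (hPSA : S_PSA.{u}) {a b m q n : ℕ} (ha : 2 ≤ a) (hb : 2 ≤ b)
    (hab : Nat.Coprime a b)
    (hm : 1 ≤ m) (hH : HH k a b m q n) {f g : MvPolynomial (Fin 2) k} (h : Hyp a b m q f g)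
    (hT : Top ((n + 1 : ℕ) : ℤ) 1 (((n + 1 : ℕ) : ℤ) * ((a : ℤ) * (m : ℤ)) + (a : ℤ) * (q : ℤ)) f)
    {κ c : k} (hκ : κ ≠ 0)
    (hA : part ((n + 1 : ℕ) : ℤ) 1 (((n + 1 : ℕ) : ℤ) * ((a : ℤ) * (m : ℤ)) + (a : ℤ) * (q : ℤ)) f =
      C κ * X 1 ^ (a * q) * (X 0 + C c * X 1 ^ (n + 1)) ^ (a * m)) : Concl k a b m := by
  obtain ⟨f', g', h1, h2, h3, h4, h5, h6, h7⟩ := hPSA k f g a b m q (n + 1) κ c ha hb hab hm h.1
    h.2.1 h.2.2.1 h.2.2.2.1 h.2.2.2.2 (by omega) hκ hT hA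
  refine caseI hDH hCL1 hCL3 hPSB ha hb hab hm hH (f := f') (g := g') ⟨h1, h2, h3, h4, h5⟩ h6 ?_
  intro r hr hw
  have h8 := part_mem hw hr
  rw [h7] at h8
  have h9 : (C κ * X 1 ^ (a * q) * X 0 ^ (a * m) : MvPolynomial (Fin 2) k) =
      C κ * X 1 ^ (a * q) * (X 0 + C 0 * X 1 ^ 1) ^ (a * m) := by simp
  rw [h9] at h8
  obtain ⟨l, hl, b1, b2, b3⟩ := shape_mem h8
  have hl0 : l = 0 := by
    by_contra hne
    exact b3 hne rfl
  subst hl0
  rw [ext_iff', e_zero, e_one]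
  exact ⟨by omega, by omega⟩

theorem lin_bot (κ a1 b1 a2 b2 : k) (i j : ℕ) :
    coeff (e (i + j) 0) (C κ * (C a1 * X 0 + C b1 * X 1) ^ i * (C a2 * X 0 + C b2 * X 1) ^ j :
      MvPolynomial (Fin 2) k) = κ * a1 ^ i * a2 ^ j := by
  rw [← ev_coeff]
  have h1 : ev (C κ * (C a1 * X 0 + C b1 * X 1) ^ i * (C a2 * X 0 + C b2 * X 1) ^ j :
      MvPolynomial (Fin 2) k) = Polynomial.C (κ * a1 ^ i * a2 ^ j) * Polynomial.X ^ (i + j) := by
    simp [ev, mul_pow, pow_add]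
    ring
  rw [h1, Polynomial.coeff_C_mul, Polynomial.coeff_X_pow_self, mul_one]

theorem lin_shape {κ a1 b1 a2 b2 : k} {i j : ℕ} (h : i = 0 ∨ a1 = 0) (h2 : a2 ≠ 0) :
    (C κ * (C a1 * X 0 + C b1 * X 1) ^ i * (C a2 * X 0 + C b2 * X 1) ^ j :
      MvPolynomial (Fin 2) k) =
      C (κ * b1 ^ i * a2 ^ j) * X 1 ^ i * (X 0 + C (b2 / a2) * X 1 ^ 1) ^ j := by
  have e1 : (C a1 * X 0 + C b1 * X 1 : MvPolynomial (Fin 2) k) ^ i = C (b1 ^ i) * X 1 ^ i := by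
    rcases h with h | h
    · subst h
      simp
    · subst h
      simp [mul_pow]
  have e2 : (C a2 * X 0 + C b2 * X 1 : MvPolynomial (Fin 2) k) =
      C a2 * (X 0 + C (b2 / a2) * X 1 ^ 1) := by
    have e3 : (C b2 : MvPolynomial (Fin 2) k) = C a2 * C (b2 / a2) := by
      rw [← C_mul, mul_div_cancel₀ _ h2]
    rw [e3]
    ring
  rw [e1, e2, mul_pow]
  simp only [C_mul, C_pow]
  ring

/-- the linear case with a factor `X 1 ^ i` -/
theorem linA [IsAlgClosed k] [CharZero k] (hDH : S_DH.{u}) (hCL1 : S_CL1.{u}) (hCL3 : S_CL3.{u})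
    (hPSB : S_PSB.{u}) (hPSA : S_PSA.{u}) {a b m q : ℕ} (ha : 2 ≤ a) (hb : 2 ≤ b)
    (hab : Nat.Coprime a b)
    (hm : 1 ≤ m) (hH : HH k a b m q 0) {f g : MvPolynomial (Fin 2) k} (h : Hyp a b m q f g)
    (hT : Top ((0 + 1 : ℕ) : ℤ) 1 (((0 + 1 : ℕ) : ℤ) * ((a : ℤ) * (m : ℤ)) + (a : ℤ) * (q : ℤ)) f)
    {κ a1 b1 a2 b2 : k} {i j : ℕ} (hκ : κ ≠ 0)
    (hA : part ((0 + 1 : ℕ) : ℤ) 1 (((0 + 1 : ℕ) : ℤ) * ((a : ℤ) * (m : ℤ)) + (a : ℤ) * (q : ℤ)) f =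
      C κ * (C a1 * X 0 + C b1 * X 1) ^ i * (C a2 * X 0 + C b2 * X 1) ^ j)
    (h1 : i = 0 ∨ (a1 = 0 ∧ b1 ≠ 0)) (h2 : a2 ≠ 0) : Concl k a b m := by
  rw [lin_shape (h1.imp id fun h' => h'.1) h2] at hA
  have hκ' : κ * b1 ^ i * a2 ^ j ≠ 0 := by
    refine mul_ne_zero (mul_ne_zero hκ ?_) (pow_ne_zero _ h2)
    rcases h1 with h3 | ⟨_, h3⟩
    · rw [h3, pow_zero]
      exact one_ne_zero
    · exact pow_ne_zero _ h3
  obtain ⟨hj, hi⟩ := shape_eq (n := 0 + 1) h hκ' hA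
  rw [hi, hj] at hA hκ'
  exact caseA hDH hCL1 hCL3 hPSB hPSA ha hb hab hm hH h hT hκ' hA

theorem coeff_lin {α β : k} {r : Fin 2 →₀ ℕ}
    (h : coeff r (C α * X 0 + C β * X 1 : MvPolynomial (Fin 2) k) ≠ 0) : r 0 + 1 * r 1 = 1 := by
  rw [coeff_add, coeff_C_mul, coeff_C_mul] at h
  by_cases h0 : coeff r (X 0 : MvPolynomial (Fin 2) k) = 0
  · rw [h0, mul_zero, zero_add] at h
    rw [coeff_X_e 1 r (right_ne_zero_of_mul h)]
    simp
  · rw [coeff_X_e 0 r h0]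
    simp

/-- the case of two different lines -/
theorem linB [IsAlgClosed k] [CharZero k] (hPSB : S_PSB.{u}) {a b m q : ℕ} (ha : 2 ≤ a)
    (hb : 2 ≤ b) (hab : Nat.Coprime a b)
    (hm : 1 ≤ m) {f g : MvPolynomial (Fin 2) k} (h : Hyp a b m q f g) (hq : q = 0)
    (hT : Top ((0 + 1 : ℕ) : ℤ) 1 (((0 + 1 : ℕ) : ℤ) * ((a : ℤ) * (m : ℤ)) + (a : ℤ) * (q : ℤ)) f)
    {κ a1 b1 a2 b2 : k} {i j : ℕ} (hκ : κ ≠ 0) (hΔ : a1 * b2 - a2 * b1 ≠ 0)
    (hA : part ((0 + 1 : ℕ) : ℤ) 1 (((0 + 1 : ℕ) : ℤ) * ((a : ℤ) * (m : ℤ)) + (a : ℤ) * (q : ℤ)) f =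
      C κ * (C a1 * X 0 + C b1 * X 1) ^ i * (C a2 * X 0 + C b2 * X 1) ^ j)
    (hj : 1 ≤ j) : Concl k a b m := by
  subst hq
  have eD : (((0 + 1 : ℕ) : ℤ) * ((a : ℤ) * (m : ℤ)) + (a : ℤ) * ((0 : ℕ) : ℤ)) =
      (a : ℤ) * (m : ℤ) := by
    push_cast
    ring
  have e1 : ((0 + 1 : ℕ) : ℤ) = 1 := by norm_num
  rw [eD, e1] at hT hA
  set δ : k := (a1 * b2 - a2 * b1)⁻¹ with hδ
  have hd : (C a1 * C b2 - C a2 * C b1) * C δ = (1 : MvPolynomial (Fin 2) k) := by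
    rw [← C_mul, ← C_mul, ← C_sub, ← C_mul, hδ, mul_inv_cancel₀ hΔ, C_1]
  have hs0 : C a1 * (C (b2 * δ) * X 0 + C (-(b1 * δ)) * X 1) +
      C b1 * (C (-(a2 * δ)) * X 0 + C (a1 * δ) * X 1) = (X 0 : MvPolynomial (Fin 2) k) := by
    simp only [C_mul, C_neg]
    linear_combination (X 0) * hd
  have hs1 : C a2 * (C (b2 * δ) * X 0 + C (-(b1 * δ)) * X 1) +
      C b2 * (C (-(a2 * δ)) * X 0 + C (a1 * δ) * X 1) = (X 1 : MvPolynomial (Fin 2) k) := by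
    simp only [C_mul, C_neg]
    linear_combination (X 1) * hd
  have hs2 : C (b2 * δ) * (C a1 * X 0 + C b1 * X 1) + C (-(b1 * δ)) * (C a2 * X 0 + C b2 * X 1) =
      (X 0 : MvPolynomial (Fin 2) k) := by
    simp only [C_mul, C_neg]
    linear_combination (X 0) * hd
  have hs3 : C (-(a2 * δ)) * (C a1 * X 0 + C b1 * X 1) + C (a1 * δ) * (C a2 * X 0 + C b2 * X 1) =
      (X 1 : MvPolynomial (Fin 2) k) := by
    simp only [C_mul, C_neg]
    linear_combination (X 1) * hd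
  refine hPSB k f g a b m 1 i j κ
    ![C (b2 * δ) * X 0 + C (-(b1 * δ)) * X 1, C (-(a2 * δ)) * X 0 + C (a1 * δ) * X 1]
    ![C a1 * X 0 + C b1 * X 1, C a2 * X 0 + C b2 * X 1] ha hb hab
    hm h.1 h.2.1 h.2.2.1 le_rfl (by rw [Nat.cast_one]; exact hT) ?_ ?_ ?_ ?_ hκ hj ?_
  · intro l
    fin_cases l
    · simpa [algebraMap_eq] using hs0
    · simpa [algebraMap_eq] using hs1
  · intro l
    fin_cases l
    · simpa [algebraMap_eq] using hs2
    · simpa [algebraMap_eq] using hs3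
  · intro r hr
    exact coeff_lin hr
  · intro r hr
    exact coeff_lin hr
  · rw [Nat.cast_one, hA]
    have e4 : ∀ s : Fin 2 → MvPolynomial (Fin 2) k,
        aeval s (C κ * (C a1 * X 0 + C b1 * X 1) ^ i * (C a2 * X 0 + C b2 * X 1) ^ j :
          MvPolynomial (Fin 2) k) =
          C κ * (C a1 * s 0 + C b1 * s 1) ^ i * (C a2 * s 0 + C b2 * s 1) ^ j := by
      intro s
      simp only [map_mul, map_pow, map_add, algHom_C, aeval_X, algebraMap_eq]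
    rw [e4]
    simp only [Matrix.cons_val_zero, Matrix.cons_val_one]
    rw [hs0, hs1]

/-- the direction `(1, 1)` -/
theorem lin [IsAlgClosed k] [CharZero k] (hDH : S_DH.{u}) (hCL1 : S_CL1.{u}) (hCL3 : S_CL3.{u})
    (hPSB : S_PSB.{u}) (hPSA : S_PSA.{u}) {a b m q : ℕ} (ha : 2 ≤ a) (hb : 2 ≤ b)
    (hab : Nat.Coprime a b)
    (hm : 1 ≤ m) (hH : HH k a b m q 0) {f g : MvPolynomial (Fin 2) k} (h : Hyp a b m q f g)
    (hT : Top ((0 + 1 : ℕ) : ℤ) 1 (((0 + 1 : ℕ) : ℤ) * ((a : ℤ) * (m : ℤ)) + (a : ℤ) * (q : ℤ)) f)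
    {κ a1 b1 a2 b2 : k} {i j : ℕ} (hκ : κ ≠ 0) (hΔ : a1 * b2 - a2 * b1 ≠ 0)
    (hA : part ((0 + 1 : ℕ) : ℤ) 1 (((0 + 1 : ℕ) : ℤ) * ((a : ℤ) * (m : ℤ)) + (a : ℤ) * (q : ℤ)) f =
      C κ * (C a1 * X 0 + C b1 * X 1) ^ i * (C a2 * X 0 + C b2 * X 1) ^ j) : Concl k a b m := by
  have hA' : part ((0 + 1 : ℕ) : ℤ) 1 (((0 + 1 : ℕ) : ℤ) * ((a : ℤ) * (m : ℤ)) +
      (a : ℤ) * (q : ℤ)) f =
      C κ * (C a2 * X 0 + C b2 * X 1) ^ j * (C a1 * X 0 + C b1 * X 1) ^ i := by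
    rw [hA]
    ring
  by_cases h0 : κ * a1 ^ i * a2 ^ j = 0
  · rcases mul_eq_zero.1 h0 with h1 | h1
    · rcases mul_eq_zero.1 h1 with h2 | h2
      · exact absurd h2 hκ
      · have ha1 : a1 = 0 := by
          by_contra hne
          exact pow_ne_zero _ hne h2
        rw [ha1, zero_mul, zero_sub, neg_ne_zero] at hΔ
        exact linA hDH hCL1 hCL3 hPSB hPSA ha hb hab hm hH h hT hκ hA
          (Or.inr ⟨ha1, right_ne_zero_of_mul hΔ⟩) (left_ne_zero_of_mul hΔ)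
    · have ha2 : a2 = 0 := by
        by_contra hne
        exact pow_ne_zero _ hne h1
      rw [ha2, zero_mul, sub_zero] at hΔ
      exact linA hDH hCL1 hCL3 hPSB hPSA ha hb hab hm hH h hT hκ hA'
        (Or.inr ⟨ha2, right_ne_zero_of_mul hΔ⟩) (left_ne_zero_of_mul hΔ)
  · have h1 : coeff (e (i + j) 0) (part ((0 + 1 : ℕ) : ℤ) 1 (((0 + 1 : ℕ) : ℤ) *
        ((a : ℤ) * (m : ℤ)) + (a : ℤ) * (q : ℤ)) f) ≠ 0 := by
      rw [hA, lin_bot]
      exact h0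
    have h2 := part_wt h1
    rw [e_zero, e_one] at h2
    have h3 : i + j ≤ a * m := by
      rcases h.corner.2 _ (part_ne h1) with h4 | ⟨h4, _⟩
      · rw [e_zero] at h4
        exact h4.le
      · rw [e_zero] at h4
        exact h4.le
    have h4 : i + j = a * m + a * q := by
      zify
      push_cast at h2
      linarith
    have h5 : a * q = 0 := by omega
    have hq : q = 0 := by
      rcases Nat.mul_eq_zero.1 h5 with h6 | h6
      · omega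
      · exact h6
    have ham : 0 < a * m := Nat.mul_pos (by omega) (by omega)
    rcases Nat.eq_zero_or_pos i with hi | hi
    · have h6 : a2 ≠ 0 := by
        intro h7
        apply h0
        rw [h7, zero_pow (by omega), mul_zero]
      exact linA hDH hCL1 hCL3 hPSB hPSA ha hb hab hm hH h hT hκ hA (Or.inl hi) h6
    · rcases Nat.eq_zero_or_pos j with hj | hj
      · have h6 : a1 ≠ 0 := by
          intro h7
          apply h0
          rw [h7, zero_pow (by omega), mul_zero, zero_mul]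
        exact linA hDH hCL1 hCL3 hPSB hPSA ha hb hab hm hH h hT hκ hA' (Or.inl hj) h6
      · exact linB hPSB ha hb hab hm h hq hT hκ hΔ hA hj

/-- the induction step -/
theorem step [IsAlgClosed k] [CharZero k] (hDH : S_DH.{u}) (hCL1 : S_CL1.{u}) (hCL2 : S_CL2.{u})
    (hCL3 : S_CL3.{u}) (hCL4 : S_CL4.{u}) (hPSB : S_PSB.{u}) (hPSA : S_PSA.{u}) {a b m q n : ℕ}
    (ha : 2 ≤ a) (hb : 2 ≤ b) (hab : Nat.Coprime a b) (hm : 1 ≤ m) (hH : HH k a b m q n) :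
    HH k a b m q (n + 1) := by
  intro f g h hT
  by_cases hs : ∀ r, coeff r f ≠ 0 → ((n + 1 : ℕ) : ℤ) * (r 0 : ℤ) + 1 * (r 1 : ℤ) =
      ((n + 1 : ℕ) : ℤ) * ((a : ℤ) * (m : ℤ)) + (a : ℤ) * (q : ℤ) → r = e (a * m) (a * q)
  · exact caseI hDH hCL1 hCL3 hPSB ha hb hab hm hH h hT hs
  push Not at hs
  obtain ⟨r2, hr2, hw, hne⟩ := hs
  have hlt : r2 0 < a * m := by
    by_contra hcon
    exact hne (h.eq_corner hr2 (not_lt.1 hcon))
  have hltz : (r2 0 : ℤ) < (a : ℤ) * (m : ℤ) := by exact_mod_cast hlt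
  have hn1 : (0 : ℤ) < ((n + 1 : ℕ) : ℤ) := by exact_mod_cast Nat.succ_pos n
  have hgt : a * q < r2 1 := by
    have h1 := mul_lt_mul_of_pos_left hltz hn1
    have h2 : (a : ℤ) * (q : ℤ) < (r2 1 : ℤ) := by linarith
    exact_mod_cast h2
  obtain ⟨c, hc, hJ⟩ := h.1.1
  have ham : 0 < a * m := Nat.mul_pos (by omega) (by omega)
  have hamz : (0 : ℤ) < (a : ℤ) * (m : ℤ) := by exact_mod_cast ham
  have haqz : (0 : ℤ) ≤ (a : ℤ) * (q : ℤ) := by positivity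
  have hDpos : (0 : ℤ) < ((n + 1 : ℕ) : ℤ) * ((a : ℤ) * (m : ℤ)) + (a : ℤ) * (q : ℤ) := by
    have := mul_pos hn1 hamz
    linarith
  obtain ⟨φ, hφ⟩ := hDH k f g c hc hJ ((n + 1 : ℕ) : ℤ) 1 _ hn1 (by linarith) hDpos hT
    (dh_pos hn1.ne' hr2 hw (by omega))
  have hAne : part ((n + 1 : ℕ) : ℤ) 1
      (((n + 1 : ℕ) : ℤ) * ((a : ℤ) * (m : ℤ)) + (a : ℤ) * (q : ℤ)) f ≠ 0 := by
    intro h0
    have h1 := part_mem hw hr2
    rw [h0, coeff_zero] at h1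
    exact h1 rfl
  rcases Nat.eq_zero_or_pos n with hn | hn
  · subst hn
    have e1 : ((0 + 1 : ℕ) : ℤ) + 1 = 2 := by norm_num
    rw [e1] at hφ
    obtain ⟨κ, a1, b1, a2, b2, i, j, hκ, hΔ, hA⟩ := hCL4 k _ φ _ hDpos hAne
      (fun r hr => by have := part_wt hr; push_cast at this ⊢; linarith) hφ
    exact lin hDH hCL1 hCL3 hPSB hPSA ha hb hab hm hH h hT hκ hΔ hA
  · obtain ⟨κ, c', i, j, hκ, hA⟩ := hCL2 k _ φ (n + 1) _ (by omega) hDpos hAne
      (fun r hr => by have := part_wt hr; linarith) hφ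
    obtain ⟨hi, hj⟩ := shape_eq h hκ hA
    rw [hi, hj] at hA
    exact caseA hDH hCL1 hCL3 hPSB hPSA ha hb hab hm hH h hT hκ hA

end

end PsAux

universe u

/-- The positive directions: case analysis. -/
theorem ps : S_SIM.{u} → S_DH.{u} → S_CL1.{u} → S_CL2.{u} → S_CL3.{u} → S_CL4.{u} → S_PSA.{u} →
    S_PSB.{u} → S_PS.{u} := by
  intro hSIM hDH hCL1 hCL2 hCL3 hCL4 hPSA hPSB k _ _ _ f g a b m q ha hb hab hm hqm hBad hS1 hS2
    hL hU
  have hall : ∀ n, PsAux.HH k a b m q n := by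
    intro n
    induction n with
    | zero => exact PsAux.base hSIM ha hb hab hqm
    | succ n ih => exact PsAux.step hDH hCL1 hCL2 hCL3 hCL4 hPSB hPSA ha hb hab hm ih
  have hy : PsAux.Hyp a b m q f g := ⟨hBad, hS1, hS2, hL, hU⟩
  refine hall (f.support.sup (fun r => r 1)) f g hy ⟨?_, e (a * m) (a * q), hL.1, ?_⟩
  · intro r hr
    have h1 : r 1 ≤ f.support.sup (fun r => r 1) :=
      Finset.le_sup (f := fun r : Fin 2 →₀ ℕ => r 1) (mem_support_iff.2 hr)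
    set N := f.support.sup (fun r => r 1)
    have h1z : (r 1 : ℤ) ≤ (N : ℤ) := by exact_mod_cast h1
    have haqz : (0 : ℤ) ≤ (a : ℤ) * (q : ℤ) := by positivity
    rcases hy.corner.2 r hr with h2 | ⟨h2, h3⟩
    · have h2z : (r 0 : ℤ) + 1 ≤ (a : ℤ) * (m : ℤ) := by exact_mod_cast h2
      have h4 := mul_le_mul_of_nonneg_left h2z (Int.natCast_nonneg N)
      linarith
    · rw [h2, h3]
      push_cast
      linarith
  · rw [e_zero, e_one]
    push_cast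
    ring

end Pool.Agent.W443.J6
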